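import Mathlib

set_option autoImplicit false

namespace Pool.Agent.Results.MP_057a77_an.Counter

open Complex

/-- A continuous compactly supported refinable function whose symbol has no pair of symmetric zeros
and whose Zak transform has a zero on every line `t = const`. -/
theorem result : ∃ φ : ℝ → ℂ, φ ≠ 0 ∧ Continuous φ ∧ HasCompactSupport φ ∧
    ∃ (s : Finset ℤ) (d : ℤ → ℂ), (∀ t : ℝ, φ (t / 2) = ∑ k ∈ s, d k * φ (t - k)) ∧
      (∀ ξ : ℝ, ¬ (∑ k ∈ s, d k * cexp (2 * Real.pi * I * k * ξ) = 0 ∧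
        ∑ k ∈ s, d k * cexp (2 * Real.pi * I * k * (ξ + 1 / 2 : ℝ)) = 0)) ∧
      ∀ t : ℝ, ∃ ξ : ℝ, ∑' k : ℤ, φ (t + k) * cexp (2 * Real.pi * I * k * ξ) = 0 := by
  refine ⟨fun t => ((|t + 3| + |t - 3|) / 2 - |t| : ℝ), fun h => by simpa using congrFun h 0,
    by fun_prop,
    HasCompactSupport.intro (isCompact_Icc (a := -3) (b := 3)) fun t ht => ?_,
    {-3, 0, 3}, fun k => if k = 0 then 1 else 1 / 2, fun t => ?_, fun ξ ⟨h1, h2⟩ => ?_,
    fun t => ⟨1 / 3, ?_⟩⟩
  · rw [Set.mem_Icc, not_and_or, not_le, not_le] at ht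
    rw [ofReal_eq_zero]
    rcases ht with h | h
    · rw [abs_of_neg (by linarith), abs_of_neg (by linarith), abs_of_neg (by linarith)]; ring
    · rw [abs_of_pos (by linarith), abs_of_pos (by linarith), abs_of_pos (by linarith)]; ring
  · simp only [show t / 2 + 3 = (t + 6) / 2 by ring, show t / 2 - 3 = (t - 6) / 2 by ring, abs_div]
    simp [show t + 3 + 3 = t + 6 by ring, show t - 3 - 3 = t - 6 by ring]
    ring
  · simp only [Finset.mem_insert, Finset.mem_singleton, Int.reduceNeg, Finset.sum_singleton,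
      Finset.sum_insert, not_false_eq_true, reduceCtorEq, Int.reduceEq, or_self, if_true,
      if_false] at h1 h2
    push_cast at h1 h2
    rw [show 2 * Real.pi * I * -3 * (ξ + 1 / 2) =
        2 * Real.pi * I * -3 * ξ + Real.pi * I + (-2 : ℤ) * (2 * Real.pi * I) by push_cast; ring,
      show 2 * Real.pi * I * 3 * (ξ + 1 / 2) =
        2 * Real.pi * I * 3 * ξ + Real.pi * I + (1 : ℤ) * (2 * Real.pi * I) by push_cast; ring,
      exp_add, exp_add, exp_add, exp_add, exp_int_mul_two_pi_mul_I, exp_int_mul_two_pi_mul_I,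
      exp_pi_mul_I] at h2
    simp only [mul_zero, zero_mul, exp_zero] at h1 h2
    exact two_ne_zero (show (2 : ℂ) = 0 by linear_combination h1 + h2)
  · set w : ℂ := cexp (2 * Real.pi * I * (1 / 3)) with hw
    have w0 : w ≠ 0 := exp_ne_zero _
    have w3 : w ^ 3 = 1 := by
      rw [hw, ← exp_nat_mul, show ((3 : ℕ) : ℂ) * (2 * Real.pi * I * (1 / 3)) = 2 * Real.pi * I by
        push_cast; ring, exp_two_pi_mul_I]
    have w1 : w ≠ 1 := fun h => by
      obtain ⟨n, h⟩ := exp_eq_one_iff.1 h
      have h : (1 / 3 : ℂ) = n := mul_left_cancel₀ two_pi_I_ne_zero (h.trans (mul_comm _ _))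
      have h : (3 * n : ℤ) = 1 := by exact_mod_cast (show (3 * n : ℂ) = 1 by rw [← h]; norm_num)
      omega
    have w2 : w ^ 2 + w + 1 = 0 :=
      mul_left_cancel₀ (sub_ne_zero.2 w1) (by linear_combination w3)
    set g : ℝ → ℝ := fun x => (|x + 2| + |x - 2| - |x + 1| - |x - 1|) / 2 with hg
    set a : ℤ → ℂ := fun k => g (t + k) * w ^ k with ha
    have sa : Summable a := by
      refine summable_of_ne_finset_zero (s := Finset.Icc (-⌈|t|⌉ - 2) (⌈|t|⌉ + 2)) fun k hk => ?_
      have h1 := Int.le_ceil |t|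
      have h2 : (⌈|t|⌉ + 2 : ℝ) ≤ |(k : ℝ)| := by
        rw [Finset.mem_Icc] at hk
        exact_mod_cast (show ⌈|t|⌉ + 2 ≤ |k| by rcases abs_cases k with h | h <;> omega)
      have h3 := abs_sub_abs_le_abs_add (k : ℝ) t
      rw [add_comm] at h3
      have : g (t + k) = 0 := by
        simp only [hg]
        rcases le_abs'.1 (show 2 ≤ |t + k| by linarith) with h | h
        · rw [abs_of_nonpos (by linarith), abs_of_nonpos (by linarith), abs_of_nonpos (by linarith),
            abs_of_nonpos (by linarith)]; ring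
        · rw [abs_of_nonneg (by linarith), abs_of_nonneg (by linarith), abs_of_nonneg (by linarith),
            abs_of_nonneg (by linarith)]; ring
      simp [ha, this]
    have s1 := ((Equiv.addRight (1 : ℤ)).hasSum_iff.2 sa.hasSum).mul_left (w ^ 2)
    have s2 := ((Equiv.addRight (-1 : ℤ)).hasSum_iff.2 sa.hasSum).mul_left w
    have s3 := (s1.add s2).add sa.hasSum
    rw [show w ^ 2 * ∑' k, a k + w * ∑' k, a k + ∑' k, a k = 0 by
      linear_combination (∑' k, a k) * w2] at s3
    rw [← s3.tsum_eq]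
    refine tsum_congr fun k => ?_
    have e : (|t + k + 3| + |t + k - 3|) / 2 - |t + k| =
        g (t + (k + 1)) + g (t + (k + -1)) + g (t + k) := by
      simp only [hg]
      ring_nf
    rw [show cexp (2 * Real.pi * I * k * (1 / 3 : ℝ)) = w ^ k by
      rw [hw, ← exp_int_mul]; congr 1; push_cast; ring]
    simp only [e, ha, Function.comp, Equiv.coe_addRight, zpow_add₀ w0, zpow_one, zpow_neg,
      Int.cast_add, Int.cast_one, Int.cast_neg, ofReal_add]
    generalize (g (t + (k + 1)) : ℂ) = x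
    field_simp
    linear_combination (-x) * w3

end Pool.Agent.Results.MP_057a77_an.Counter
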